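import Mathlib
import Pool.Agent.Q209.QCPos2

/-!
# MP_76989b_gt, Q2

For every open Whyburn Hausdorff space `X` with `S_1(Ω^s, Γ^s)`, the space `Q_p(X, ℝ)` is
Fréchet-Urysohn at each point.
-/

set_option autoImplicit false

namespace Pool.Agent.Results.MP_76989b_gt.OpenWhyburnFrechet

open Q209.QC

universe u

/-- If the Hausdorff space `X` is open Whyburn and has `S_1(Ω^s, Γ^s)`, then `Q_p(X, ℝ)` is
Fréchet-Urysohn at each point. -/
theorem result (X : Type u) [TopologicalSpace X] [T2Space X] (hW : OpenWhyburn X) (hS : S1 X) :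
    ∀ f : Qp X, FUAt f :=
  main_pos_seq hW (S1seq_of_S1 hS)

end Pool.Agent.Results.MP_76989b_gt.OpenWhyburnFrechet
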