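import Mathlib
import Pool.Agent.Q209.QCNeg

/-!
# MP_76989b_gt, Q1

There is (in ZFC) a Hausdorff space with `S_1(Ω^s, Γ^s)` such that the space of its quasicontinuous
real-valued functions, with the topology of pointwise convergence, is not Fréchet-Urysohn at some
point.
-/

set_option autoImplicit false

namespace Pool.Agent.Results.MP_76989b_gt.S1NotFrechet

open Q209.QC

/-- Some Hausdorff space `X` has `S_1(Ω^s, Γ^s)` (also when the selected sets are counted with
multiplicity), and `Q_p(X, ℝ)` is not Fréchet-Urysohn at some point. -/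
theorem result : ∃ (X : Type) (_ : TopologicalSpace X), T2Space X ∧ S1 X ∧ S1seq X ∧
    ∃ f : Qp X, ¬ FUAt f := by
  obtain ⟨X, t, h1, h2, h3⟩ := main_neg
  exact ⟨X, t, h1, S1_of_S1seq h2, h2, h3⟩

end Pool.Agent.Results.MP_76989b_gt.S1NotFrechet
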